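import Mathlib
import Pool.Agent.H19.Jordan

set_option autoImplicit false
open Matrix Classical

namespace Pool.Agent.Results.MP_b5bb8b_co.Unbounded

/-- The nonbacktracking matrix, indexed by the directed edges (darts) of `G`. -/
noncomputable def nbMatrix {n : ℕ} (G : SimpleGraph (Fin n)) : Matrix G.Dart G.Dart ℂ :=
  Matrix.of fun d d' => if d.snd = d'.fst ∧ d.fst ≠ d'.snd then 1 else 0

theorem result (k : ℕ) : ∃ (n : ℕ) (G : SimpleGraph (Fin n)), (∀ v, G.degree v ≠ 1) ∧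
    ∃ (μ : ℂ) (x : G.Dart → ℂ),
      (nbMatrix G - μ • (1 : Matrix G.Dart G.Dart ℂ)) ^ (k + 1) *ᵥ x = 0 ∧
      (nbMatrix G - μ • (1 : Matrix G.Dart G.Dart ℂ)) ^ k *ᵥ x ≠ 0 :=
  Pool.Agent.H19.Jor.main k

end Pool.Agent.Results.MP_b5bb8b_co.Unbounded
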